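import Pool.Statements.S10277
import Pool.Agent.H20.UpperBound

set_option autoImplicit false
open Pool Pool.MP_973f56_co

namespace Pool.Agent.S10277

/-- For r at least 2 and ε>0 there are constants c, C, K, N so that for n ≥ N and K n^(r-1) ≤ e ≤ n^(r-ε), the max size of an r-graph in every n-vertex e-edge r-graph is within factors c, C of min(e^(r/(r-1))/n^(r-1+1/(r-1)), e^(1/r)). -/
theorem result :
    ∀ r : ℕ, 2 ≤ r → ∀ ε : ℝ, 0 < ε →
      ∃ c C K : ℝ, 0 < c ∧ 0 < C ∧ ∃ N : ℕ, ∀ n e : ℕ, N ≤ n →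
        K * (n : ℝ) ^ (r - 1) ≤ (e : ℝ) → (e : ℝ) ≤ (n : ℝ) ^ ((r : ℝ) - ε) →
        (∃ H : Finset (Finset (Fin n)), (∀ h ∈ H, h.card = r) ∧
            c * min ((e : ℝ) ^ ((r : ℝ) / ((r : ℝ) - 1)) /
                  (n : ℝ) ^ ((r : ℝ) - 1 + 1 / ((r : ℝ) - 1)))
                ((e : ℝ) ^ (1 / (r : ℝ))) ≤ (H.card : ℝ) ∧
            ∀ G : Finset (Finset (Fin n)), (∀ g ∈ G, g.card = r) → G.card = e →
              ∃ φ : Fin n ↪ Fin n, ∀ h ∈ H, h.map φ ∈ G) ∧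
        (∀ H : Finset (Finset (Fin n)), (∀ h ∈ H, h.card = r) →
            (∀ G : Finset (Finset (Fin n)), (∀ g ∈ G, g.card = r) → G.card = e →
              ∃ φ : Fin n ↪ Fin n, ∀ h ∈ H, h.map φ ∈ G) →
            (H.card : ℝ) ≤ C * min ((e : ℝ) ^ ((r : ℝ) / ((r : ℝ) - 1)) /
                  (n : ℝ) ^ ((r : ℝ) - 1 + 1 / ((r : ℝ) - 1)))
                ((e : ℝ) ^ (1 / (r : ℝ)))) := by
  intro r hr ε hε
  obtain ⟨c, K, hc, hK, N1, h1⟩ := Pool.Agent.H20.lower_bound r hr ε hε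
  obtain ⟨C, hC, N2, h2⟩ := Pool.Agent.H20.upper_bound r hr ε hε
  refine ⟨c, C, K, hc, hC, max N1 N2, ?_⟩
  intro n e hn hlow hup
  refine ⟨h1 n e (le_trans (le_max_left _ _) hn) hlow hup, ?_⟩
  intro H _ hH
  refine h2 n e (le_trans (le_max_right _ _) hn) ?_ hup H hH
  refine le_trans ?_ hlow
  have : (0 : ℝ) ≤ (n : ℝ) ^ (r - 1) := by positivity
  nlinarith

end Pool.Agent.S10277
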