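import Pool.Statements.S10366
import Pool.Agent.H31.MaderCrit

set_option autoImplicit false
open Pool Pool.MP_9b4907_co

namespace Pool.Agent.S10366

/-- The negation of the preceding statement: For n ≥ 1, let D be a finite loopless digraph that is n-connected (more than n vertices, strongly connected after removing any fewer than n vertices) but stops being so if any arc is removed. Then D has two distinct vertices whose in- and out-degrees all equal n. -/
theorem result :
    ¬ (∀ (V : Type) [Fintype V] (G : Digraph V) (n : ℕ), 1 ≤ n →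
      (∀ w, ¬ G.Adj w w) →
      (n < Fintype.card V ∧
        ∀ S : Finset V, S.card < n → ∀ u v : V, u ∉ S → v ∉ S →
          Relation.ReflTransGen (fun a b => a ∉ S ∧ b ∉ S ∧ G.Adj a b) u v) →
      (∀ x y : V, G.Adj x y →
        ¬ (∀ S : Finset V, S.card < n → ∀ u v : V, u ∉ S → v ∉ S →
          Relation.ReflTransGen
            (fun a b => a ∉ S ∧ b ∉ S ∧ G.Adj a b ∧ ¬ (a = x ∧ b = y)) u v)) →
      ∃ x y : V, x ≠ y ∧
        {z | G.Adj x z}.ncard = n ∧ {z | G.Adj z x}.ncard = n ∧
        {z | G.Adj y z}.ncard = n ∧ {z | G.Adj z y}.ncard = n) := by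
  intro h
  have key := h Pool.Agent.H31.Mader.Vt
    (Digraph.mk Pool.Agent.H31.Mader.adj) 15 (by norm_num)
    (fun w => Pool.Agent.H31.Mader.adj_irrefl w)
    ⟨by
      have h1 := Finset.card_le_card (Finset.subset_univ
        ((Finset.univ : Finset (ZMod 29)).image (fun v => Pool.Agent.H31.Mader.Vt.z 0 v)))
      rw [Finset.card_image_of_injective _ (fun a b hab => by injection hab), Finset.card_univ,
        ZMod.card, Finset.card_univ] at h1
      omega, fun S hS u v hu hv => Pool.Agent.H31.Mader.connected hS hu hv⟩
    (fun x y hxy => Pool.Agent.H31.Mader.critical hxy)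
  obtain ⟨x, y, -, h1, h2, -, -⟩ := key
  exact Pool.Agent.H31.Mader.no_both x h1 h2

end Pool.Agent.S10366
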